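import Pool.Agent.Helper58_MOO.Stmts

/-!
CCC forcings are proper (module CCC of the MOO project).
-/

namespace Pool.Agent.MOO.H18

/-- Each set of conditions contains a maximal set of pairwise incompatible conditions. -/
theorem exists_max_antichain {P : Type} [Preorder P] (D : Set P) :
    ∃ A : Set P, A ⊆ D ∧ (∀ p ∈ A, ∀ q ∈ A, p ≠ q → ¬ Comp p q) ∧
      ∀ d ∈ D, ∃ a ∈ A, Comp a d := by
  obtain ⟨A, hA⟩ := zorn_subset {A : Set P | A ⊆ D ∧ ∀ p ∈ A, ∀ q ∈ A, p ≠ q → ¬ Comp p q} (by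
    intro c hc hchain
    refine ⟨⋃₀ c, ⟨Set.sUnion_subset (fun A hA => (hc hA).1), ?_⟩,
      fun s hs => Set.subset_sUnion_of_mem hs⟩
    rintro p ⟨A, hA, hpA⟩ q ⟨B, hB, hqB⟩ hpq
    rcases hchain.total hA hB with h | h
    · exact (hc hB).2 p (h hpA) q hqB hpq
    · exact (hc hA).2 p hpA q (h hqB) hpq)
  refine ⟨A, hA.prop.1, hA.prop.2, fun d hd => ?_⟩
  by_contra hcon
  push Not at hcon
  have h1 : insert d A ∈ {A : Set P | A ⊆ D ∧ ∀ p ∈ A, ∀ q ∈ A, p ≠ q → ¬ Comp p q} := by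
    refine ⟨Set.insert_subset hd hA.prop.1, ?_⟩
    intro p hp q hq hpq
    rcases hp with rfl | hp
    · rcases hq with rfl | hq
      · exact absurd rfl hpq
      · rintro ⟨r, h1, h2⟩
        exact hcon q hq ⟨r, h2, h1⟩
    · rcases hq with rfl | hq
      · exact hcon p hp
      · exact hA.prop.2 p hp q hq hpq
  have h2 : d ∈ A := hA.le_of_ge h1 (Set.subset_insert d A) (Set.mem_insert d A)
  exact hcon d h2 ⟨d, le_rfl, le_rfl⟩

theorem ccc : CccStmt := by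
  intro P _ _ hccc
  have hne : Nonempty (P ⊕ Set P) := ⟨Sum.inr ∅⟩
  choose A hAD hA hmax using fun D : Set P => exists_max_antichain D
  refine (CM.swallow (X := P ⊕ Set P) (A := Set P) (i := Sum.inr) Sum.inr_injective
    (fun D => Sum.inl '' A D) (fun D => (hccc (A D) (hA D)).image _)).mono
    (fun M _ hM p _ => ⟨p, le_rfl, ?_⟩)
  intro D hD hDM r _
  obtain ⟨d', hd', hd'r⟩ := hD r
  obtain ⟨a, ha, r', h1, h2⟩ := hmax D d' hd'
  exact ⟨a, hAD D ha, hM D hDM ⟨a, ha, rfl⟩, r', h1, h2.trans hd'r⟩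

end Pool.Agent.MOO.H18
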