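import Pool.Agent.Helper58_MOO.Stmts

/-!
Martin's axiom for hereditary families of finite sets (module MAH of the MOO project).
-/

open Cardinal
open Pool.Agent.Helper69_LOTS

namespace Pool.Agent.MOO.H18

/-- Maximal sets of pairwise incompatible conditions. -/
theorem exists_max_antichain' {P : Type} [Preorder P] (D : Set P) :
    ∃ A : Set P, A ⊆ D ∧ (∀ p ∈ A, ∀ q ∈ A, p ≠ q → ¬ Comp p q) ∧
      ∀ d ∈ D, ∃ a ∈ A, Comp a d := by
  obtain ⟨A, hA⟩ := zorn_subset {A : Set P | A ⊆ D ∧ ∀ p ∈ A, ∀ q ∈ A, p ≠ q → ¬ Comp p q} (by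
    intro c hc hchain
    refine ⟨⋃₀ c, ⟨Set.sUnion_subset (fun A hA => (hc hA).1), ?_⟩,
      fun s hs => Set.subset_sUnion_of_mem hs⟩
    rintro p ⟨A, hA, hpA⟩ q ⟨B, hB, hqB⟩ hpq
    rcases hchain.total hA hB with h | h
    · exact (hc hB).2 p (h hpA) q hqB hpq
    · exact (hc hA).2 p hpA q (h hqB) hpq)
  refine ⟨A, hA.prop.1, hA.prop.2, fun d hd => ?_⟩
  by_contra hcon
  push Not at hcon
  have h1 : insert d A ∈ {A : Set P | A ⊆ D ∧ ∀ p ∈ A, ∀ q ∈ A, p ≠ q → ¬ Comp p q} := by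
    refine ⟨Set.insert_subset hd hA.prop.1, ?_⟩
    intro p hp q hq hpq
    rcases hp with rfl | hp
    · rcases hq with rfl | hq
      · exact absurd rfl hpq
      · rintro ⟨r, h1, h2⟩
        exact hcon q hq ⟨r, h2, h1⟩
    · rcases hq with rfl | hq
      · exact hcon p hp
      · exact hA.prop.2 p hp q hq hpq
  have h2 : d ∈ A := hA.le_of_ge h1 (Set.subset_insert d A) (Set.mem_insert d A)
  exact hcon d h2 ⟨d, le_rfl, le_rfl⟩

/-- In a ccc forcing some condition forces that the generic filter meets uncountably many of the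
given nonempty sets. -/
theorem mah_force {P : Type} [Preorder P]
    (hccc : ∀ A : Set P, (∀ p ∈ A, ∀ q ∈ A, p ≠ q → ¬ Comp p q) → A.Countable)
    (E : Om → Set P) (hE : ∀ β, (E β).Nonempty)
    (hdown : ∀ β, ∀ p ∈ E β, ∀ q ≤ p, q ∈ E β) :
    ∃ p : P, ∀ q ≤ p, ∀ α : Om, ∃ r ≤ q, ∃ β, α ≤ β ∧ r ∈ E β := by
  by_contra hcon
  push Not at hcon
  obtain ⟨A, hAD, hA, hmax⟩ := exists_max_antichain' {q : P | ∃ α : Om, ∀ r ≤ q, ∀ β, α ≤ β →
    r ∉ E β}
  have hAc : A.Countable := hccc A hA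
  have hAD' : ∀ q ∈ A, ∃ α : Om, ∀ r ≤ q, ∀ β, α ≤ β → r ∉ E β := fun q hq => hAD hq
  choose! a ha using hAD'
  obtain ⟨α, hα⟩ := Om_bdd (hAc.image a)
  obtain ⟨e, he⟩ := hE α
  obtain ⟨q, hqe, γ, hγ⟩ := hcon e
  obtain ⟨b, hb, r, hrb, hrq⟩ := hmax q ⟨γ, hγ⟩
  exact ha b hb r hrb α (hα (a b) ⟨b, hb, rfl⟩).le (hdown α e he r (hrq.trans hqe))

/-- Martin's axiom, in the form used below. -/
theorem mah_gen (hc : CccStmt) (hPFA : PFA) {P : Type} [Preorder P]
    (hccc : ∀ A : Set P, (∀ p ∈ A, ∀ q ∈ A, p ≠ q → ¬ Comp p q) → A.Countable)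
    (E : Om → Set P) (hE : ∀ β, (E β).Nonempty)
    (hdown : ∀ β, ∀ p ∈ E β, ∀ q ≤ p, q ∈ E β) :
    ∃ G : Set P, (∀ p ∈ G, ∀ q ∈ G, ∃ r ∈ G, r ≤ p ∧ r ≤ q) ∧
      ∀ α : Om, ∃ β, α ≤ β ∧ ∃ p ∈ G, p ∈ E β := by
  obtain ⟨p, hp⟩ := mah_force hccc E hE hdown
  let P' : Type := {q : P // q ≤ p}
  have : Nonempty P' := ⟨⟨p, le_rfl⟩⟩
  have hcomp : ∀ q q' : P', Comp q.1 q'.1 → Comp q q' := by
    rintro q q' ⟨r, h1, h2⟩
    exact ⟨⟨r, h1.trans q.2⟩, h1, h2⟩
  have hccc' : ∀ A : Set P', (∀ p ∈ A, ∀ q ∈ A, p ≠ q → ¬ Comp p q) → A.Countable := by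
    intro A hA
    have h1 : (Subtype.val '' A).Countable := by
      apply hccc
      rintro _ ⟨q, hq, rfl⟩ _ ⟨q', hq', rfl⟩ hne hcq
      exact hA q hq q' hq' (fun h => hne (by rw [h])) (hcomp q q' hcq)
    exact Set.countable_of_injective_of_countable_image Subtype.val_injective.injOn h1
  have hprop : Proper P' := hc P' hccc'
  obtain ⟨G, _, _, hdir, hG⟩ := hPFA P' hprop (fun α => {q | ∃ β, α ≤ β ∧ q.1 ∈ E β}) (by
    intro α q
    obtain ⟨r, hrq, β, hβ, hr⟩ := hp q.1 q.2 α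
    exact ⟨⟨r, hrq.trans q.2⟩, ⟨β, hβ, hr⟩, hrq⟩)
  refine ⟨Subtype.val '' G, ?_, fun α => ?_⟩
  · rintro _ ⟨q, hq, rfl⟩ _ ⟨q', hq', rfl⟩
    obtain ⟨r, hr, h1, h2⟩ := hdir q hq q' hq'
    exact ⟨r.1, ⟨r, hr, rfl⟩, h1, h2⟩
  · obtain ⟨q, hq, β, hβ, hqβ⟩ := hG α
    exact ⟨β, hβ, q.1, ⟨q, hq, rfl⟩, hqβ⟩

/-- The members of a family of finite sets which are contained in `Z`, smaller conditions are
larger sets. -/
structure HF {X : Type} (𝓕 : Set (Finset X)) (Z : Set X) where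
  A : Finset X
  mem : A ∈ 𝓕
  sub : (A : Set X) ⊆ Z

instance HF.preorder {X : Type} (𝓕 : Set (Finset X)) (Z : Set X) : Preorder (HF 𝓕 Z) where
  le q p := p.A ⊆ q.A
  le_refl p := Finset.Subset.refl _
  le_trans r q p h1 h2 := Finset.Subset.trans h2 h1

theorem HF.A_injective {X : Type} (𝓕 : Set (Finset X)) (Z : Set X) :
    Function.Injective (HF.A : HF 𝓕 Z → Finset X) := by
  rintro ⟨A, _, _⟩ ⟨B, _, _⟩ h
  simp only at h
  subst h
  rfl

theorem mah (hc : CccStmt) : MahStmt := by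
  classical
  intro hPFA X 𝓕 hher hccc Z hZ hsing
  -- an injective enumeration of a part of `Z`
  have h1 : ℵ₁ ≤ #Z := by
    rw [← Cardinal.succ_aleph0, Order.succ_le_iff]
    by_contra h
    exact hZ (Cardinal.mk_le_aleph0_iff.1 (not_lt.1 h))
  rw [← mk_Om] at h1
  obtain ⟨x⟩ := h1
  have hx : Function.Injective (fun β : Om => (x β : X)) :=
    fun a b h => x.injective (Subtype.ext h)
  obtain ⟨G, hdir, hG⟩ := mah_gen hc hPFA (P := HF 𝓕 Z) (by
    intro A hA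
    by_contra hcon
    have h2 : ¬ (HF.A '' A).Countable := fun h => hcon
      (Set.countable_of_injective_of_countable_image (HF.A_injective 𝓕 Z).injOn h)
    obtain ⟨_, ⟨p, hp, rfl⟩, _, ⟨q, hq, rfl⟩, hne, E, hE, h3, h4⟩ := hccc (HF.A '' A) (by
      rintro _ ⟨p, _, rfl⟩
      exact p.mem) h2
    refine hA p hp q hq (fun h => hne (by rw [h])) ⟨⟨p.A ∪ q.A,
      hher E hE _ (Finset.union_subset h3 h4), ?_⟩, Finset.subset_union_left,
      Finset.subset_union_right⟩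
    rw [Finset.coe_union]
    exact Set.union_subset p.sub q.sub)
    (fun β => {q | (x β : X) ∈ q.A})
    (fun β => ⟨⟨{(x β : X)}, hsing _ (x β).2, by simp⟩, by simp⟩)
    (fun β p hp q hq => (show p.A ⊆ q.A from hq) hp)
  refine ⟨{z | ∃ p ∈ G, z ∈ p.A}, ?_, ?_, ?_⟩
  · rintro z ⟨p, _, hz⟩
    exact p.sub hz
  · intro hcount
    have h3 : {β : Om | (x β : X) ∈ {z | ∃ p ∈ G, z ∈ p.A}}.Countable :=
      hcount.preimage hx
    obtain ⟨α, hα⟩ := Om_bdd h3
    obtain ⟨β, hβ, p, hp, hpβ⟩ := hG α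
    exact absurd hβ (not_le.2 (hα β ⟨p, hp, hpβ⟩))
  · intro A
    induction A using Finset.induction_on with
    | empty =>
      intro _
      obtain ⟨o⟩ := (inferInstance : Nonempty Om)
      exact hher _ (hsing _ (x o).2) ∅ (Finset.empty_subset _)
    | insert a A _ _ =>
      intro h
      have h4 : ∀ B : Finset X, B ⊆ insert a A → B.Nonempty → ∃ p ∈ G, B ⊆ p.A := by
        intro B
        induction B using Finset.induction_on with
        | empty => intro _ h; exact absurd h Finset.not_nonempty_empty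
        | insert b B _ ih =>
          intro hB _
          obtain ⟨p, hp, hpb⟩ := h (hB (Finset.mem_insert_self b B))
          rcases B.eq_empty_or_nonempty with rfl | hne
          · exact ⟨p, hp, by
              intro y hy
              rw [Finset.mem_insert] at hy
              rcases hy with rfl | hy
              · exact hpb
              · exact absurd hy (Finset.notMem_empty _)⟩
          · obtain ⟨q, hq, hBq⟩ := ih ((Finset.subset_insert b B).trans hB) hne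
            obtain ⟨r, hr, h5, h6⟩ := hdir p hp q hq
            exact ⟨r, hr, Finset.insert_subset (h5 hpb) (hBq.trans h6)⟩
      obtain ⟨p, _, hp⟩ := h4 _ (Finset.Subset.refl _) (Finset.insert_nonempty a A)
      exact hher _ p.mem _ hp

end Pool.Agent.MOO.H18
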